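import Pool.Agent.Helper230.IdxLang

/-!
# Effective test sets for indexed languages

All symbols are natural numbers. On right-hand sides and in sentential forms the constructor
`Sum.inl` marks nonterminals and `Sum.inr` marks terminals.
-/

namespace Pool.Agent.Results.MP_8ee1cf_lc.TestSets

/-- An indexed grammar `(S, P₁, P₂, P₃)`: the start symbol `S`, the rules `A → α` listed as
pairs `(A, α)` in `P₁`, the rules `A → B f` listed as triples `(A, B, f)` in `P₂`, and the rules
`A f → α` listed as triples `(A, f, α)` in `P₃`. In a right-hand side `α` the letter `inl B` is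
the nonterminal `B` and the letter `inr a` is the terminal `a`. -/
abbrev Grammar : Type :=
  ℕ × List (ℕ × List (ℕ ⊕ ℕ)) × List (ℕ × ℕ × ℕ) × List (ℕ × ℕ × List (ℕ ⊕ ℕ))

/-- A sentential form: a word whose letters are `inl (A, σ)`, the nonterminal `A` carrying the
index stack `σ` (top first), and `inr a`, the terminal `a`. -/
abbrev Form : Type := List ((ℕ × List ℕ) ⊕ ℕ)

/-- The word `α` with every nonterminal carrying the stack `σ`. -/
def carry (σ : List ℕ) (α : List (ℕ ⊕ ℕ)) : Form :=
  α.map (Sum.map (fun B => (B, σ)) id)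

/-- `Rewrites G A σ x`: one rule of `G` turns `A[σ]` into `x`. -/
def Rewrites (G : Grammar) (A : ℕ) (σ : List ℕ) (x : Form) : Prop :=
  (∃ α, (A, α) ∈ G.2.1 ∧ x = carry σ α) ∨
  (∃ B f, (A, B, f) ∈ G.2.2.1 ∧ x = [Sum.inl (B, f :: σ)]) ∨
  (∃ f τ α, σ = f :: τ ∧ (A, f, α) ∈ G.2.2.2 ∧ x = carry τ α)

/-- One derivation step: one nonterminal occurrence is rewritten. -/
def Produces (G : Grammar) (u v : Form) : Prop :=
  ∃ (p s : Form) (A : ℕ) (σ : List ℕ) (x : Form),
    u = p ++ Sum.inl (A, σ) :: s ∧ Rewrites G A σ x ∧ v = p ++ x ++ s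

/-- The language of `G`: terminal words derivable from the start symbol with empty stack. -/
def language (G : Grammar) : Set (List ℕ) :=
  {w | Relation.ReflTransGen (Produces G) [Sum.inl (G.1, [])] (w.map Sum.inr)}

/-- The finite list `F` of words is a test set for the language `L`: its words lie in `L`, and
for every alphabet `Δ`, two monoid homomorphisms `g, h` into `Δ*` agree on all of `L` iff they
agree on the words of `F`. -/
def IsTestSet (L : Set (List ℕ)) (F : List (List ℕ)) : Prop :=
  (∀ w ∈ F, w ∈ L) ∧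
  ∀ (Δ : Type) (g h : FreeMonoid ℕ →* FreeMonoid Δ),
    (∀ w ∈ L, g (FreeMonoid.ofList w) = h (FreeMonoid.ofList w)) ↔
      (∀ w ∈ F, g (FreeMonoid.ofList w) = h (FreeMonoid.ofList w))

open Pool.Agent.Helper230

theorem rewrites_iff (G : Grammar) (q : ℕ × List ℕ) (x : Form) :
    Rewrites G q.1 q.2 x ↔ Ex G q x := Iff.rfl

theorem produces_eq (G : Grammar) : Produces G = Step (Ex G) := by
  funext u v
  apply propext
  constructor
  · rintro ⟨p, s, A, σ, x, hu, hx, hv⟩
    exact ⟨p, s, (A, σ), x, hu, hx, hv⟩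
  · rintro ⟨p, s, ⟨A, σ⟩, x, hu, hx, hv⟩
    exact ⟨p, s, A, σ, x, hu, hx, hv⟩

theorem language_eq (G : Grammar) : language G = Lang G := by
  ext w
  change Relation.ReflTransGen (Produces G) _ _ ↔ Der (Ex G) _ _
  rw [produces_eq]
  exact rtg_iff_Der _ _

theorem hom_apply {Δ : Type} (g : FreeMonoid ℕ →* FreeMonoid Δ) (w : List ℕ) :
    FreeMonoid.toList (g (FreeMonoid.ofList w))
      = w.flatMap (fun a => FreeMonoid.toList (g (FreeMonoid.of a))) := by
  induction w with
  | nil => simp
  | cons a w ih =>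
    rw [FreeMonoid.ofList_cons, map_mul, FreeMonoid.toList_mul, ih, List.flatMap_cons]

section irr
attribute [local irreducible] S1 Primrec Lang

theorem s1_good : S1 fun x : Grammar × List (List ℕ) =>
    (∃ C : Cert, ValidC x.1 C ∧ KC C x.1.1 none = x.2.map (fun w => w.map Sum.inr)) ∧
      ∀ w ∈ x.2, w ∈ Lang x.1 := by
  refine S1.and ?_ ?_
  · refine S1.exists (q := fun (x : Grammar × List (List ℕ)) (C : Cert) =>
      ValidC x.1 C ∧ KC C x.1.1 none = x.2.map (fun w => w.map Sum.inr)) ?_
    exact s1_certF.comp (f := fun y : (Grammar × List (List ℕ)) × Cert => (y.1.1, y.2, y.1.2))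
      (Primrec.pair (Primrec.fst.comp Primrec.fst)
        (Primrec.pair Primrec.snd (Primrec.snd.comp Primrec.fst)))
  · refine S1.forall_mem' (f := fun x : Grammar × List (List ℕ) => x.2)
      (q := fun x w => w ∈ Lang x.1) Primrec.snd ?_
    exact s1_Lang.comp (f := fun y : (Grammar × List (List ℕ)) × List ℕ => (y.1.1, y.2))
      (Primrec.pair (Primrec.fst.comp Primrec.fst) Primrec.snd)

end irr

/-- Sanity check: the one-rule grammar `S → a` generates exactly the word `a`. -/
theorem language_single (a : ℕ) :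
    language (0, [(0, [Sum.inr a])], [], []) = {[a]} := by
  rw [language_eq]
  ext w
  constructor
  · rintro ⟨n, h⟩
    obtain ⟨m, x, -, hx, hd⟩ := h.single_inv
    rcases hx with ⟨α, hα, rfl⟩ | ⟨B, f, hB, rfl⟩ | ⟨f, s, α, hs, hα, rfl⟩
    · simp only [List.mem_singleton, Prod.mk.injEq] at hα
      obtain ⟨-, rfl⟩ := hα
      exact DerN.ter_inv hd
    · simp at hB
    · simp at hα
  · rintro rfl
    exact Der.single (Or.inl ⟨[Sum.inr a], by simp, rfl⟩) (Der.of_ters [a])

/-- There is an algorithm that, given any indexed grammar, outputs a test set for its language. -/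
theorem result :
    ∃ F : Grammar → List (List ℕ), Computable F ∧ ∀ G : Grammar, IsTestSet (language G) (F G) := by
  obtain ⟨F, hF, hg⟩ := computable_choice_of_S1 (q := fun (G : Grammar) (F : List (List ℕ)) =>
    (∃ C : Cert, ValidC G C ∧ KC C G.1 none = F.map (fun w => w.map Sum.inr)) ∧
      ∀ w ∈ F, w ∈ Lang G) s1_good (fun G => by
    obtain ⟨C, F, hC, hF, hL⟩ := exists_test (G := G)
    exact ⟨F, ⟨C, hC, hF⟩, hL⟩)
  refine ⟨F, hF, fun G => ?_⟩
  obtain ⟨⟨C, hC, hK⟩, hL⟩ := hg G
  rw [language_eq]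
  refine ⟨hL, fun Δ g h => ⟨fun H w hw => H w (hL w hw), fun H w hw => ?_⟩⟩
  have h1 := test_sound hC hK (fun a => FreeMonoid.toList (g (FreeMonoid.of a)))
    (fun a => FreeMonoid.toList (h (FreeMonoid.of a))) (fun w hw => by
      have := congrArg FreeMonoid.toList (H w hw)
      rwa [hom_apply, hom_apply] at this) w hw
  rw [← hom_apply, ← hom_apply] at h1
  exact FreeMonoid.toList.injective h1

end Pool.Agent.Results.MP_8ee1cf_lc.TestSets
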